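import Pool.Agent.W852.HV.Fin
import Pool.Agent.W22.HV.Bis
import Pool.Agent.W22.HV.Small
import Pool.Agent.W358.HVPat
import Pool.Agent.W358.HVInf
import Pool.Agent.W52.HV.Conv

/-!
# The hyperbolic Poisson Voronoi graph has no anchored thin triangles

Almost surely, for every vertex `x` of the Voronoi graph of a Poisson point process of the
hyperbolic plane and for every `δ` there is a geodesic triangle with vertex `x` which is not
`δ`-thin.
-/

set_option autoImplicit false

namespace Pool.Agent.Results.MP_c20824_pr.NotAnchoredThin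

open MeasureTheory HypVoronoi
open scoped UpperHalfPlane

theorem result {Ω : Type} [MeasurableSpace Ω] (Pr : Measure Ω) [IsProbabilityMeasure Pr]
    (lam : ℝ) (hlam : 0 < lam) (Pt : Ω → Set ℍ) (hPt : IsPoisson Pr lam Pt) :
    ∀ᵐ ω ∂Pr, (graph (Pt ω)).Connected ∧
      ∀ (x : Pt ω) (δ : ℝ), ∃ (y z : Pt ω) (a : (graph (Pt ω)).Walk x y)
        (b : (graph (Pt ω)).Walk y z) (c : (graph (Pt ω)).Walk z x),
        IsGeo a ∧ IsGeo b ∧ IsGeo c ∧ ¬ Thin δ a b c :=
  main (Pool.Agent.W22.HV.t_adj Pool.Agent.W52.HV.conv) Pool.Agent.W22.HV.t_trip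
    Pool.Agent.W22.HV.t_compl Pool.Agent.W22.HV.t_cell Pool.Agent.W22.HV.t_arc
    (Pool.Agent.W358.HV.pat Pool.Agent.W22.HV.t_part Pool.Agent.W358.HV.inf) Pr lam hlam Pt hPt

end Pool.Agent.Results.MP_c20824_pr.NotAnchoredThin
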